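import Mathlib

set_option autoImplicit false

namespace Pool.Agent.Results.MP_2c23da_an.Counter

open Filter Topology

section defs
variable (X : Type) [NormedAddCommGroup X] [NormedSpace ℝ X]

/-- slice index of thickness -/
noncomputable def Ts : ℝ :=
  sInf {r : ℝ | 0 < r ∧ ∃ (x : X) (f : X →L[ℝ] ℝ) (α : ℝ), ‖x‖ = 1 ∧ ‖f‖ = 1 ∧ 0 < α ∧
    {y : X | ‖y‖ ≤ 1 ∧ 1 - α < f y} ⊆ Metric.closedBall x r}

/-- weak-star slice index of thickness of the dual -/
noncomputable def TsStar : ℝ :=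
  sInf {r : ℝ | 0 < r ∧ ∃ (f : X →L[ℝ] ℝ) (x : X) (α : ℝ), ‖f‖ = 1 ∧ ‖x‖ = 1 ∧ 0 < α ∧
    {g : X →L[ℝ] ℝ | ‖g‖ ≤ 1 ∧ 1 - α < g x} ⊆ Metric.closedBall f r}

variable {X} in
/-- the image of the unit ball lies in a weakly compact set -/
def WeaklyCompactOp (T : X →L[ℝ] X) : Prop :=
  ∃ K : Set (WeakSpace ℝ X), IsCompact K ∧ ∀ x : X, ‖x‖ ≤ 1 → toWeakSpace ℝ X (T x) ∈ K

noncomputable def W : ℝ :=
  sInf {s : ℝ | ∃ T : X →L[ℝ] X, ‖T‖ = 1 ∧ WeaklyCompactOp T ∧
    s = ‖T + ContinuousLinearMap.id ℝ X‖}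

end defs

abbrev Y := lp (fun _ : ℕ => ℝ) 1

abbrev E := WithLp 2 (Y × ℝ)

noncomputable def u : E := WithLp.toLp 2 (0, 1)

noncomputable def p : E →L[ℝ] ℝ := WithLp.sndL 2 ℝ Y ℝ

lemma nsq (v : E) : ‖v‖ ^ 2 = ‖v.fst‖ ^ 2 + v.snd ^ 2 := by
  simpa using WithLp.prod_norm_sq_eq_of_L2 v

lemma u_norm : ‖u‖ = 1 := by
  simp [u]

lemma p_le (v : E) : ‖p v‖ ≤ ‖v‖ := WithLp.norm_snd_le _ v

lemma p_norm : ‖p‖ = 1 := by
  refine le_antisymm (ContinuousLinearMap.opNorm_le_bound _ zero_le_one fun v => by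
    simpa using p_le v) ?_
  have := p.le_opNorm u
  rw [u_norm] at this
  simpa [p, u] using this

lemma inf0 {S : Set ℝ} (h0 : ∀ r ∈ S, 0 < r) (h : ∀ r : ℝ, 0 < r → r ≤ 1 → r ∈ S) : sInf S = 0 := by
  refine le_antisymm (le_of_forall_pos_le_add fun ε hε => ?_)
    (le_csInf ⟨1, h 1 one_pos le_rfl⟩ fun r hr => (h0 r hr).le)
  refine (csInf_le ⟨0, fun r hr => (h0 r hr).le⟩
    (h (min ε 1) (lt_min hε one_pos) (min_le_right _ _))).trans ?_
  simp

lemma Ts0 : Ts E = 0 := by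
  refine inf0 (fun r hr => hr.1) fun r h0 h1 => ⟨h0, u, p, r ^ 2 / 2, u_norm, p_norm,
    by positivity, fun y hy => ?_⟩
  rw [Metric.mem_closedBall, dist_eq_norm]
  refine abs_le_of_sq_le_sq' ?_ h0.le |>.2
  have a1 := nsq y
  have a2 := nsq (y - u)
  have a3 : 1 - r ^ 2 / 2 < y.snd := hy.2
  have a4 : ‖y‖ ^ 2 ≤ 1 := pow_le_one₀ (norm_nonneg _) hy.1
  simp [u] at a2
  simp only [u]
  nlinarith

lemma TsStar0 : TsStar E = 0 := by
  refine inf0 (fun r hr => hr.1) fun r h0 h1 => ⟨h0, p, u, (r / 3) ^ 2, p_norm, u_norm,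
    by positivity, fun g hg => ?_⟩
  rw [Metric.mem_closedBall, dist_eq_norm]
  obtain ⟨g1, g2⟩ := hg
  have gle : ∀ v, g v ≤ ‖v‖ := fun v => (le_abs_self _).trans ((g.le_opNorm v).trans
    (by nlinarith [norm_nonneg v]))
  have g3 : g u ≤ 1 := by simpa [u_norm] using gle u
  have key : ∀ v : E, ‖v‖ ≤ 1 → (g - p) v ≤ r := by
    intro v hv
    set w : E := WithLp.toLp 2 (v.fst, 0) with hw
    have e : v = w + v.snd • u := by
      apply (WithLp.ofLp_injective 2)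
      ext <;> simp [hw, u]
    have b1 := nsq v
    have b2 : ‖v‖ ^ 2 ≤ 1 := pow_le_one₀ (norm_nonneg _) hv
    have b3 := nsq ((r / 3) • w + u)
    have b4 : ‖(r / 3) • w + u‖ ≤ 1 + (r / 3) ^ 2 / 2 := by
      refine abs_le_of_sq_le_sq' ?_ (by positivity) |>.2
      simp [hw, u, norm_smul, mul_pow] at b3
      simp only [hw, u]
      have : ‖v.fst‖ ^ 2 ≤ 1 := by nlinarith [sq_nonneg v.snd]
      rw [b3, abs_of_pos h0]
      nlinarith [sq_nonneg (r / 3), sq_nonneg ((r / 3) ^ 2),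
        mul_le_mul_of_nonneg_left this (sq_nonneg (r / 3))]
    have b5 := (gle _).trans b4
    rw [map_add, map_smul, smul_eq_mul] at b5
    have b6 : g w ≤ r / 2 := by nlinarith
    have b7 : |v.snd| ≤ 1 := (p_le v).trans hv
    have b8 : g v = g w + v.snd * g u := by
      conv_lhs => rw [e]
      simp
    have b9 : p v = v.snd := rfl
    rw [abs_le] at b7
    simp only [sub_apply, b8, b9]
    nlinarith [b7.1, b7.2]
  refine ContinuousLinearMap.opNorm_le_of_unit_norm h0.le fun v hv => ?_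
  rw [Real.norm_eq_abs, abs_le]
  have := key (-v) (by simp [hv])
  rw [map_neg] at this
  exact ⟨by linarith, key v hv.le⟩

lemma hs (x : Y) : HasSum (fun b => |x b|) ‖x‖ := by
  simpa using lp.hasSum_norm (p := 1) (by simp) x

noncomputable def tail (N : ℕ) : Y →L[ℝ] ℝ :=
  lp.tsumCLM ℝ ℕ ℝ - ∑ k ∈ Finset.range N, lp.evalCLM ℝ (fun _ : ℕ => ℝ) 1 k

lemma tail_eq (N : ℕ) (x : Y) : tail N x = ∑' k, x (k + N) := by
  have := (hs x).summable.of_abs.sum_add_tsum_nat_add N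
  simp [tail, lp.tsumCLM, lp.evalCLM, lp.evalₗ]
  linarith

lemma tail_le (N : ℕ) (x : Y) : |tail N x| ≤ ‖x‖ := by
  have h := (hs x).summable
  have h1 := h.sum_add_tsum_nat_add N
  have h2 : ‖∑' k, x (k + N)‖ ≤ ∑' k, ‖x (k + N)‖ :=
    norm_tsum_le_tsum_norm ((summable_nat_add_iff N).mpr h)
  have h3 : 0 ≤ ∑ k ∈ Finset.range N, |x k| := by positivity
  rw [tail_eq, ← (hs x).tsum_eq]
  simp only [Real.norm_eq_abs] at h2
  linarith

lemma one_le {T : E →L[ℝ] E} (hT : WeaklyCompactOp T) : 1 ≤ ‖T + ContinuousLinearMap.id ℝ E‖ := by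
  by_contra hlt
  push Not at hlt
  obtain ⟨K, hK, hm⟩ := hT
  set x : ℕ → E := fun n => WithLp.toLp 2 (lp.single 1 n 1, 0) with hx
  have xn : ∀ n, ‖x n‖ = 1 := by
    intro n
    simp [hx, lp.norm_single]
  obtain ⟨y, -, hy⟩ := hK.exists_mapClusterPt (f := atTop)
    (u := fun n => toWeakSpace ℝ E (T (x n)))
    (le_principal_iff.mpr (mem_map.mpr (Eventually.of_forall fun n => hm _ (xn n).le)))
  set y' : E := (toWeakSpace ℝ E).symm y with hy'
  have ht := tendsto_sum_nat_add (fun k => y'.fst k)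
  obtain ⟨N, hN⟩ := (ht.eventually (lt_mem_nhds
    (show ‖T + ContinuousLinearMap.id ℝ E‖ - 1 < 0 by linarith))).exists
  set f : E →L[ℝ] ℝ := (tail N).comp (WithLp.fstL 2 ℝ Y ℝ) with hf
  have fc : Continuous fun v : WeakSpace ℝ E => f ((toWeakSpace ℝ E).symm v) :=
    WeakBilin.eval_continuous (topDualPairing ℝ E).flip f
  have h1 := (hy.continuousAt_comp fc.continuousAt).frequently
    (lt_mem_nhds (show ‖T + ContinuousLinearMap.id ℝ E‖ - 1 < f y' by
      rw [← tail_eq] at hN; exact hN))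
  obtain ⟨n, hn, hn'⟩ := (h1.and_eventually (eventually_ge_atTop N)).exists
  have h2 : f (x n) = 1 := by
    show tail N (lp.single 1 n 1) = 1
    rw [tail_eq, tsum_eq_single (n - N)]
    · rw [Nat.sub_add_cancel hn', lp.single_apply_self]
    · intro k hk
      exact lp.single_apply_ne _ _ _ (by omega)
  have h3 : f ((T + ContinuousLinearMap.id ℝ E) (x n)) ≤ ‖T + ContinuousLinearMap.id ℝ E‖ := by
    refine (le_abs_self _).trans ((tail_le N _).trans ((WithLp.norm_fst_le _ _).trans ?_))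
    simpa [xn] using (T + ContinuousLinearMap.id ℝ E).le_opNorm (x n)
  simp only [add_apply, ContinuousLinearMap.id_apply, map_add, h2] at h3
  simp only [Function.comp, LinearEquiv.symm_apply_apply] at hn
  linarith

theorem result : ∃ (X : Type) (_ : NormedAddCommGroup X) (_ : NormedSpace ℝ X)
    (_ : CompleteSpace X) (_ : Nontrivial X),
    Ts X = 0 ∧ TsStar X = 0 ∧ 1 ≤ W X ∧ W X ≠ max (Ts X) (TsStar X) := by
  have h : 1 ≤ W E := by
    refine le_csInf ⟨_, p.smulRight u, by simp [p_norm, u_norm], ?_, rfl⟩ ?_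
    · refine ⟨(fun t : ℝ => toWeakSpaceCLM ℝ E (t • u)) '' Set.Icc (-1) 1,
        isCompact_Icc.image (by fun_prop), fun x hx => ⟨p x, abs_le.mp ((p_le x).trans hx), rfl⟩⟩
    · rintro _ ⟨T, -, hT, rfl⟩
      exact one_le hT
  refine ⟨E, inferInstance, inferInstance, inferInstance, inferInstance, Ts0, TsStar0, h, ?_⟩
  rw [Ts0, TsStar0, max_self]
  linarith

end Pool.Agent.Results.MP_2c23da_an.Counter
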